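import Pool.Agent.URW.Fin.Seq
import Pool.Agent.URW.S4.Main
import Pool.Agent.URW.S5.Main
import Pool.Agent.URW.B.Labels

/-!
# URW Fin/Main: the answer
-/

set_option autoImplicit false

open UW1 Filter Topology

namespace URW

theorem answer_seq :
    ∃ (X Q : ℕ → Type) (_ : ∀ n, MetricSpace (X n)) (_ : ∀ n, MetricSpace (Q n))
      (π : ∀ n, Q n → X n),
      (∀ n, CompactSpace (X n) ∧ Geodesic (X n) ∧ SimplyConnectedSpace (Q n) ∧
        Geodesic (Q n) ∧ IsCoveringMap (π n) ∧ Function.Surjective (π n) ∧ LocIso (π n) ∧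
        UW 1 (Q n) ≤ 1 ∧ UWT.UWloc 1 (Q n) ≤ 1) ∧
      Tendsto (fun n => UW 1 (X n)) atTop (𝓝 ⊤) := by
  refine seq_of_forall (answer_of (fun X v => X.cover v)
    (fun X s r S hS => X.sdeep_noncr s r S hS) ?_)
  intro m K n L hm V _ _ ρ hρ hinj heven hbig c H hsp hhit _ hlab
  obtain ⟨X, h1, h2, h3, -, -, h6⟩ :=
    exists_sys ρ c H n L K hm hρ hinj heven hbig hsp hhit hlab
  exact ⟨X, h1, h2, h3, h6⟩

end URW
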