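import Pool.Agent.URW.E.Main

/-!
# URW Fin/Seq: from `for every n` to a sequence; surjectivity of the covering map
-/

set_option autoImplicit false

open UW1 Filter Topology
open scoped ENNReal unitInterval

namespace URW

/-- A covering map from a nonempty space to a geodesic space is surjective. -/
theorem surjective_of_covering {X Q : Type} [MetricSpace X] [MetricSpace Q] [Nonempty Q]
    (hX : Geodesic X) {p : Q → X} (hp : IsCoveringMap p) : Function.Surjective p := by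
  intro x
  obtain ⟨q⟩ := ‹Nonempty Q›
  obtain ⟨γ, hγ⟩ := hX (p q) x
  have hc : Continuous fun t : I => γ (dist (p q) x * t) := by
    refine (LipschitzWith.of_dist_le_mul (K := (dist (p q) x).toNNReal) fun s t => ?_).continuous
    have hm : ∀ u : I, dist (p q) x * (u : ℝ) ∈ Set.Icc 0 (dist (p q) x) := fun u =>
      ⟨mul_nonneg dist_nonneg u.2.1, mul_le_of_le_one_right dist_nonneg u.2.2⟩
    rw [hγ.isom _ (hm s) _ (hm t), ← mul_sub, abs_mul, abs_of_nonneg dist_nonneg,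
      Real.coe_toNNReal _ dist_nonneg, Subtype.dist_eq, Real.dist_eq]
  obtain ⟨Γ, hΓ, -⟩ := hp.exists_path_lifts ⟨_, hc⟩ q (by
    change γ (dist (p q) x * ((0 : I) : ℝ)) = p q
    rw [Set.Icc.coe_zero, mul_zero, hγ.start])
  refine ⟨Γ 1, ?_⟩
  have h1 := congrFun hΓ 1
  change p (Γ 1) = γ (dist (p q) x * ((1 : I) : ℝ)) at h1
  rw [h1, Set.Icc.coe_one, mul_one, hγ.finish]

/-- The sequence form of the answer. -/
theorem seq_of_forall
    (h : ∀ n : ℕ, ∃ (X Q : Type) (_ : MetricSpace X) (_ : MetricSpace Q) (π : Q → X),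
      CompactSpace X ∧ Geodesic X ∧ SimplyConnectedSpace Q ∧ Geodesic Q ∧ IsCoveringMap π ∧
      LocIso π ∧ UWT.UWloc 1 Q ≤ 1 ∧ (n : ℝ≥0∞) ≤ UW 1 X) :
    ∃ (X Q : ℕ → Type) (_ : ∀ n, MetricSpace (X n)) (_ : ∀ n, MetricSpace (Q n))
      (π : ∀ n, Q n → X n),
      (∀ n, CompactSpace (X n) ∧ Geodesic (X n) ∧ SimplyConnectedSpace (Q n) ∧
        Geodesic (Q n) ∧ IsCoveringMap (π n) ∧ Function.Surjective (π n) ∧ LocIso (π n) ∧
        UW 1 (Q n) ≤ 1 ∧ UWT.UWloc 1 (Q n) ≤ 1) ∧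
      Tendsto (fun n => UW 1 (X n)) atTop (𝓝 ⊤) := by
  choose X Q mX mQ π h1 h2 h3 h4 h5 h6 h7 h8 using h
  refine ⟨X, Q, mX, mQ, π, fun n => ⟨h1 n, h2 n, h3 n, h4 n, h5 n, ?_, h6 n,
    (UWT.uw_le_uwloc 1 (Q n)).trans (h7 n), h7 n⟩, ?_⟩
  · have := h3 n
    have : Nonempty (Q n) := inferInstance
    exact surjective_of_covering (h2 n) (h5 n)
  · exact tendsto_of_tendsto_of_tendsto_of_le_of_le ENNReal.tendsto_nat_nhds_top
      tendsto_const_nhds h8 fun n => le_top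

end URW
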